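import Pool.Agent.MP_fcd29e_an.H55.T4a

/-! Averages over complex lines: duality, reproduction, square integrability. -/

set_option autoImplicit false

namespace Pool.Agent.MP_fcd29e_an.H55

open Pool.Agent.MP_fcd29e_an.H81 MeasureTheory Complex Set Filter Topology Metric
open scoped ContDiff ComplexConjugate ENNReal NNReal

noncomputable section

variable {N : ℕ} {a b : ℤ}

theorem ae_ne : ∀ᵐ c : ℂ, c ≠ 0 := by
  simp [ae_iff]

theorem qmp (h0 : StmtT0) : Measure.QuasiMeasurePreserving (fun p : E N × ℂ => p.2 • p.1)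
    (volume.prod volume) volume := by
  refine QuasiMeasurePreserving.prod_of_left (by fun_prop) ?_
  filter_upwards [ae_ne] with c hc
  exact (h0.1 N c hc).2.2.2

theorem aesm_wt : AEStronglyMeasurable (fun p : E N × ℂ => wt a b p.2) (volume.prod volume) :=
  (measurable_wt.comp measurable_snd).aestronglyMeasurable

theorem wt_bound {r R : ℝ} (hr : 0 < r) : ∃ M : ℝ, 0 ≤ M ∧ ∀ c ∈ ann r R, ‖wt a b c‖ ≤ M := by
  obtain ⟨M, hM⟩ := (isCompact_ann r R).exists_bound_of_continuousOn (f := wt a b)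
    fun c hc => (contDiffAt_wt (ann_ne hr hc)).continuousAt.continuousWithinAt
  exact ⟨max M 0, le_max_right _ _, fun c hc => (hM c hc).trans (le_max_left _ _)⟩

theorem wt_dual {c : ℂ} (hc : c ≠ 0) :
    ((‖c‖ ^ 2 : ℝ) : ℂ)⁻¹ * (c⁻¹ ^ (-a) * conj c⁻¹ ^ (-b) * ((‖c⁻¹‖ ^ (2 * N) : ℝ) : ℂ)⁻¹) =
      wt (-a - N) (-b - N) c := by
  have h2 : conj c ≠ 0 := by simpa using hc
  have h3 : ((‖c‖ ^ (2 * N) : ℝ) : ℂ) = c ^ N * conj c ^ N := by
    rw [← mul_pow, mul_conj, normSq_eq_norm_sq, pow_mul]; push_cast; rfl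
  rw [norm_inv, inv_pow, ofReal_inv, inv_inv, h3, map_inv₀, wt]
  simp only [neg_sub, sub_neg_eq_add, zpow_add₀ hc, zpow_add₀ h2, zpow_natCast, inv_zpow',
    neg_neg]
  ring

theorem pp_dual (h0 : StmtT0) {g ψ : E N → ℂ} {K : Set (E N)} (hK : IsCompact K)
    (hK0 : (0 : E N) ∉ K) (hgK : ∀ z ∉ K, g z = 0) (hg : Integrable g) (hψ : Test (E0 N) ψ) :
    ∫ z, Pp a b g z * ψ z = ∫ z, g z * Pp (-a - N) (-b - N) ψ z := by
  obtain ⟨r, R, hr, hR, hKs⟩ := shell hK hK0
  obtain ⟨s, S, hs, hS, hψs⟩ := shell hψ.2.1 fun h => hψ.2.2 h rfl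
  obtain ⟨B, hB⟩ := hψ.1.continuous.bounded_above_of_compact_support hψ.2.1
  set T : Set ℂ := ann (r / S) (R / s) with hT
  have hTc : IsCompact T := isCompact_ann _ _
  have hT0 : ∀ c ∈ T, c ≠ 0 := fun c hc => ann_ne (by positivity) hc
  let n : ℂ → ℂ := fun c => ((‖c‖ ^ (2 * N) : ℝ) : ℂ)⁻¹
  have hn : Measurable n := (by fun_prop : Measurable fun c : ℂ => ((‖c‖ ^ (2 * N) : ℝ) : ℂ)).inv
  let F : E N → ℂ → ℂ := fun z c => wt a b c * g (c • z) * ψ z
  let G : E N → ℂ → ℂ := fun y c => n c * (wt a b c * g y * ψ (c⁻¹ • y))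
  have hFm : AEStronglyMeasurable (Function.uncurry F) (volume.prod volume) :=
    (aesm_wt.mul (hg.1.comp_quasiMeasurePreserving (qmp h0))).mul
      hψ.1.continuous.aestronglyMeasurable.comp_fst
  have hGm : AEStronglyMeasurable (Function.uncurry G) (volume.prod volume) :=
    (hn.comp measurable_snd).aestronglyMeasurable.mul ((aesm_wt.mul hg.1.comp_fst).mul
      (hψ.1.continuous.measurable.comp (measurable_snd.inv.smul measurable_fst)).aestronglyMeasurable)
  have hGi : Integrable (Function.uncurry G) (volume.prod volume) := by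
    have hc : ContinuousOn (fun c => n c * wt a b c * B) T := fun c hc =>
      (((((continuous_ofReal.comp (continuous_norm.pow (2 * N))).continuousAt).inv₀
        (by simpa using fun h => (hT0 c hc h).elim)).mul
          (contDiffAt_wt (hT0 c hc)).continuousAt).mul continuousAt_const).continuousWithinAt
    have h1 : Integrable (T.indicator fun c => n c * wt a b c * B) :=
      (integrable_indicator_iff hTc.measurableSet).2 (hc.integrableOn_compact hTc)
    refine (hg.mul_prod h1).mono hGm (ae_of_all _ fun p => ?_)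
    simp only [Function.uncurry, G]
    by_cases hp : p.2 ∈ T
    · rw [indicator_of_mem hp]
      simp only [norm_mul]
      have h2 : ‖ψ (p.2⁻¹ • p.1)‖ ≤ ‖(B : ℂ)‖ := (hB _).trans (by simpa using le_abs_self B)
      calc _ ≤ ‖n p.2‖ * (‖wt a b p.2‖ * ‖g p.1‖ * ‖(B : ℂ)‖) := by gcongr
        _ = _ := by ring
    · rw [indicator_of_notMem hp]
      by_cases h2 : p.2 = 0
      · simp [h2, wt_zero]
      by_cases h3 : p.1 ∈ K
      · rw [image_eq_zero_of_notMem_tsupport (f := ψ)]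
        · simp
        · intro h
          have h4 : p.2 • p.2⁻¹ • p.1 = p.1 := by rw [smul_smul, mul_inv_cancel₀ h2, one_smul]
          exact hp (mem_ann hs (hψs _ h).1 (hψs _ h).2 (by rw [h4]; exact (hKs _ h3).1)
            (by rw [h4]; exact (hKs _ h3).2))
      · simp [hgK _ h3]
  have hsm : ∀ c : ℂ, c ≠ 0 → ∀ z : E N, c⁻¹ • c • z = z := fun c hc z => by
    rw [smul_smul, inv_mul_cancel₀ hc, one_smul]
  have hFi : Integrable (Function.uncurry F) (volume.prod volume) := by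
    refine ⟨hFm, ?_⟩
    have h1 := hGi.2
    rw [hasFiniteIntegral_iff_enorm, lintegral_prod_symm _ hGm.enorm] at h1
    rw [hasFiniteIntegral_iff_enorm, lintegral_prod_symm _ hFm.enorm]
    refine lt_of_eq_of_lt (lintegral_congr_ae ?_) h1
    filter_upwards [ae_ne] with c hc
    have h2 := (h0.1 N c hc).2.1 fun y => ‖wt a b c * g y * ψ (c⁻¹ • y)‖ₑ
    simp only [hsm c hc] at h2
    simp only [Function.uncurry, F, G]
    rw [h2, ← lintegral_const_mul' _ _ ENNReal.ofReal_ne_top]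
    refine lintegral_congr fun y => ?_
    rw [enorm_mul (n c)]
    congr 1
    rw [← ofReal_norm]
    simp [n]
  calc ∫ z, Pp a b g z * ψ z = ∫ z, ∫ c, F z c := by
        refine integral_congr_ae (ae_of_all _ fun z => ?_)
        simp only [pp_eq, F]
        rw [integral_mul_const]
    _ = ∫ c, ∫ z, F z c := integral_integral_swap hFi
    _ = ∫ c, ∫ y, G y c := by
        refine integral_congr_ae ?_
        filter_upwards [ae_ne] with c hc
        have h2 := (h0.1 N c hc).1 fun y => wt a b c * g y * ψ (c⁻¹ • y)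
        simp only [hsm c hc] at h2
        simp only [F, G]
        rw [h2, integral_const_mul]
    _ = ∫ y, ∫ c, G y c := (integral_integral_swap hGi).symm
    _ = ∫ z, g z * Pp (-a - N) (-b - N) ψ z := by
        refine integral_congr_ae (ae_of_all _ fun y => ?_)
        have h2 := h0.2.2.1 fun c => c ^ (-a) * conj c ^ (-b) * n c * ψ (c⁻¹ • y)
        simp only [pp_eq]
        calc ∫ c, G y c = g y * ∫ c : ℂ, ((‖c‖ ^ 2 : ℝ) : ℂ)⁻¹ *
              (c ^ (-a) * conj c ^ (-b) * n c * ψ (c⁻¹ • y)) := by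
              rw [← integral_const_mul]
              refine integral_congr_ae (ae_of_all _ fun c => ?_)
              simp only [G, wt]; ring
          _ = _ := by
              rw [← h2]
              congr 1
              refine integral_congr_ae ?_
              filter_upwards [ae_ne] with c hc
              rw [← wt_dual hc, inv_inv]
              simp only [n]; ring

theorem aesm_hop (h0 : StmtT0) {κ : ℝ → ℝ} (hκ : Kap κ) {g : E N → ℂ}
    (hg : AEStronglyMeasurable g volume) :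
    AEStronglyMeasurable (fun p : E N × ℂ =>
      wt a b p.2 * ((κ (‖p.2 • p.1‖ ^ 2) : ℂ) * g (p.2 • p.1))) (volume.prod volume) := by
  have h1 : Continuous fun y : E N => (κ (‖y‖ ^ 2) : ℂ) :=
    continuous_ofReal.comp (hκ.smooth.continuous.comp (continuous_norm.pow 2))
  exact aesm_wt.mul ((h1.aestronglyMeasurable.mul hg).comp_quasiMeasurePreserving (qmp h0))

theorem hop_meas (h0 : StmtT0) {κ : ℝ → ℝ} (hκ : Kap κ) {g : E N → ℂ}
    (hg : AEStronglyMeasurable g volume) : AEStronglyMeasurable (Hop κ a b g) volume := by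
  have := (aesm_hop (a := a) (b := b) h0 hκ hg).integral_prod_right'
  refine this.congr (ae_of_all _ fun y => ?_)
  simp only [Hop, pp_eq]

theorem kap_int (h0 : StmtT0) {κ : ℝ → ℝ} (hκ : Kap κ) {y : E N} (hy : y ≠ 0) :
    ∫ c : ℂ, ((‖c‖ ^ 2 : ℝ) : ℂ)⁻¹ * (κ (‖c • y‖ ^ 2) : ℂ) = 1 := by
  have hy' : ‖y‖ ≠ 0 := norm_ne_zero_iff.2 hy
  have h1 := (h0.2.1 (‖y‖ : ℂ) (by simpa using hy)).1 fun c => ((κ (‖c‖ ^ 2) / ‖c‖ ^ 2 : ℝ) : ℂ)
  rw [integral_complex_ofReal (f := fun c : ℂ => κ (‖c‖ ^ 2) / ‖c‖ ^ 2), hκ.norm] at h1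
  have h2 : ∫ c : ℂ, ((‖c‖ ^ 2 : ℝ) : ℂ)⁻¹ * (κ (‖c • y‖ ^ 2) : ℂ) =
      ((‖y‖ ^ 2 : ℝ) : ℂ) * ∫ c : ℂ, ((κ (‖(‖y‖ : ℂ) * c‖ ^ 2) / ‖(‖y‖ : ℂ) * c‖ ^ 2 : ℝ) : ℂ) := by
    rw [← integral_const_mul]
    refine integral_congr_ae (ae_of_all _ fun c => ?_)
    have : (‖y‖ : ℂ) ≠ 0 := by simpa using hy
    simp only [norm_mul, norm_smul, norm_real, norm_norm, mul_comm ‖c‖ ‖y‖]
    push_cast
    by_cases hc : c = 0
    · simp [hc]
    · have : (‖c‖ : ℂ) ≠ 0 := by simpa using hc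
      field_simp
  rw [h2, h1]
  simp [hy]

theorem hop_eq (h0 : StmtT0) {κ : ℝ → ℝ} (hκ : Kap κ) {g : E N → ℂ}
    (hg : AEStronglyMeasurable g volume) (hN : 1 ≤ N) (hh : AH (E0 N) a b g) :
    ∀ᵐ y, Hop κ a b g y = g y := by
  have : Nonempty (Fin N) := ⟨⟨0, hN⟩⟩
  have hne : ∀ᵐ y : E N, y ≠ 0 := by simp [ae_iff]
  let D : E N × ℂ → ℂ := fun p => g (p.2 • p.1) - p.2 ^ a * conj p.2 ^ b * g p.1
  have hD : AEStronglyMeasurable D (volume.prod volume) :=
    (hg.comp_quasiMeasurePreserving (qmp h0)).sub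
      ((((measurable_snd.pow_const a).mul ((continuous_conj.measurable.comp
        measurable_snd).pow_const b)).aestronglyMeasurable).mul hg.comp_fst)
  have h1 : ∫⁻ p, ‖D p‖ₑ ∂(volume.prod volume) = 0 := by
    rw [lintegral_prod_symm _ hD.enorm, ← lintegral_zero (μ := (volume : Measure ℂ))]
    refine lintegral_congr_ae ?_
    filter_upwards [ae_ne] with c hc
    rw [← lintegral_zero (μ := (volume : Measure (E N)))]
    refine lintegral_congr_ae ?_
    filter_upwards [hh c hc, hne] with z hz hz0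
    simp [D, hz hz0]
  have h2 := Measure.ae_ae_of_ae_prod ((lintegral_eq_zero_iff' hD.enorm).1 h1)
  filter_upwards [h2, hne] with y hy hy0
  rw [Hop, pp_eq, ← one_mul (g y), ← kap_int h0 hκ hy0, ← integral_mul_const]
  refine integral_congr_ae ?_
  filter_upwards [hy, ae_ne] with c hc hc0
  have h3 : g (c • y) = c ^ a * conj c ^ b * g y := by
    simpa [D, sub_eq_zero] using hc
  rw [h3, ← wt_cancel (a := a) (b := b) hc0]
  ring

theorem cs {X : Type} [MeasurableSpace X] (μ : Measure X) {f : X → ℝ≥0∞} (hf : AEMeasurable f μ) :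
    (∫⁻ x, f x ∂μ) ^ 2 ≤ μ univ * ∫⁻ x, f x ^ 2 ∂μ := by
  have h := ENNReal.lintegral_mul_le_Lp_mul_Lq μ Real.HolderConjugate.two_two hf
    (g := fun _ => 1) aemeasurable_const
  simp only [Pi.mul_apply, mul_one, one_pow, lintegral_const, one_mul, ENNReal.rpow_two] at h
  calc _ ≤ ((∫⁻ x, f x ^ 2 ∂μ) ^ (1 / 2 : ℝ) * μ univ ^ (1 / 2 : ℝ)) ^ 2 := by gcongr
    _ = _ := by
      rw [mul_pow, ← ENNReal.rpow_two, ← ENNReal.rpow_two, ← ENNReal.rpow_mul, ← ENNReal.rpow_mul]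
      norm_num [mul_comm]

theorem kap_bound {κ : ℝ → ℝ} (hκ : Kap κ) : ∃ B : ℝ, 0 ≤ B ∧ ∀ s, κ s ≤ B := by
  obtain ⟨B, hB⟩ := (isCompact_Icc (a := (1 : ℝ)) (b := 4)).exists_bound_of_continuousOn
    hκ.smooth.continuous.continuousOn
  refine ⟨max B 0, le_max_right _ _, fun s => ?_⟩
  by_cases h : κ s = 0
  · rw [h]; exact le_max_right _ _
  · exact ((le_abs_self _).trans (hB s ⟨(hκ.supp s h).1.le, (hκ.supp s h).2.le⟩)).trans
      (le_max_left _ _)

theorem kap_norm {κ : ℝ → ℝ} (hκ : Kap κ) {z : E N} (h : κ (‖z‖ ^ 2) ≠ 0) :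
    1 ≤ ‖z‖ ∧ ‖z‖ ≤ 2 := by
  obtain ⟨h1, h2⟩ := hκ.supp _ h
  have := norm_nonneg z
  constructor <;> nlinarith

theorem hop_fin (h0 : StmtT0) {κ : ℝ → ℝ} (hκ : Kap κ) {g : E N → ℂ}
    (hg : AEStronglyMeasurable g volume)
    (hfin : ∫⁻ z, ENNReal.ofReal (κ (‖z‖ ^ 2) * ‖g z‖ ^ 2) < ⊤) :
    ∫⁻ z, ENNReal.ofReal (κ (‖z‖ ^ 2) * ‖Hop κ a b g z‖ ^ 2) < ⊤ := by
  obtain ⟨B, hB0, hB⟩ := kap_bound hκ
  set T : Set ℂ := ann (1 / 2) (2 / 1) with hT
  have hTc : IsCompact T := isCompact_ann _ _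
  obtain ⟨M, hM0, hM⟩ := wt_bound (a := a) (b := b) (r := 1 / 2) (R := 2 / 1) (by norm_num)
  let G : E N → ℝ≥0∞ := fun y => ENNReal.ofReal (κ (‖y‖ ^ 2) * ‖g y‖ ^ 2)
  have hGm : AEMeasurable G volume :=
    (((hκ.smooth.continuous.comp (continuous_norm.pow 2)).aemeasurable).mul
      (hg.norm.aemeasurable.pow_const 2)).ennreal_ofReal
  have hGp : AEMeasurable (fun p : E N × ℂ => G (p.2 • p.1))
      (volume.prod (volume.restrict T)) := by
    refine (hGm.comp_quasiMeasurePreserving (qmp h0)).mono_ac ?_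
    exact Measure.AbsolutelyContinuous.rfl.prod Measure.absolutelyContinuous_restrict
  have hvT : volume T < ⊤ := hTc.measure_lt_top
  have key : ∀ᵐ z, ENNReal.ofReal (κ (‖z‖ ^ 2) * ‖Hop κ a b g z‖ ^ 2) ≤
      ENNReal.ofReal B * (volume T * ENNReal.ofReal (M ^ 2 * B)) * ∫⁻ c in T, G (c • z) := by
    filter_upwards [(aesm_hop (a := a) (b := b) h0 hκ hg).prodMk_left] with z hz
    by_cases hk : κ (‖z‖ ^ 2) = 0
    · simp [hk]
    have hoff : ∀ c ∉ T, wt a b c * ((κ (‖c • z‖ ^ 2) : ℂ) * g (c • z)) = 0 := by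
      intro c hc
      by_cases h : κ (‖c • z‖ ^ 2) = 0
      · simp [h]
      · exact (hc (mem_ann one_pos (kap_norm hκ hk).1 (kap_norm hκ hk).2 (kap_norm hκ h).1
          (kap_norm hκ h).2)).elim
    have h1 : ‖Hop κ a b g z‖ₑ ≤
        ∫⁻ c in T, ‖wt a b c * ((κ (‖c • z‖ ^ 2) : ℂ) * g (c • z))‖ₑ := by
      rw [Hop, pp_eq, ← setIntegral_eq_integral_of_forall_compl_eq_zero hoff]
      exact enorm_integral_le_lintegral_enorm _
    have h2 := cs (volume.restrict T) hz.restrict.enorm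
    rw [Measure.restrict_apply_univ] at h2
    have h3 : ∫⁻ c in T, ‖wt a b c * ((κ (‖c • z‖ ^ 2) : ℂ) * g (c • z))‖ₑ ^ 2 ≤
        ENNReal.ofReal (M ^ 2 * B) * ∫⁻ c in T, G (c • z) := by
      rw [← lintegral_const_mul' _ _ ENNReal.ofReal_ne_top]
      refine setLIntegral_mono' hTc.measurableSet fun c hc => ?_
      rw [← ofReal_norm, ← ENNReal.ofReal_pow (norm_nonneg _),
        ← ENNReal.ofReal_mul (by positivity)]
      refine ENNReal.ofReal_le_ofReal ?_
      have h4 := hκ.nonneg (‖c • z‖ ^ 2)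
      rw [norm_mul, norm_mul, norm_real, Real.norm_of_nonneg h4]
      calc _ = ‖wt a b c‖ ^ 2 * κ (‖c • z‖ ^ 2) * (κ (‖c • z‖ ^ 2) * ‖g (c • z)‖ ^ 2) := by ring
        _ ≤ _ := by
          have := hM c hc
          have := hB (‖c • z‖ ^ 2)
          gcongr
    rw [ENNReal.ofReal_mul (hκ.nonneg _), ENNReal.ofReal_pow (norm_nonneg _), ofReal_norm,
      mul_assoc, mul_assoc]
    refine mul_le_mul' (ENNReal.ofReal_le_ofReal (hB _)) ?_
    calc _ ≤ _ := pow_le_pow_left' h1 2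
      _ ≤ _ := h2
      _ ≤ _ := by gcongr
  refine (lintegral_mono_ae key).trans_lt ?_
  have hC : ENNReal.ofReal B * (volume T * ENNReal.ofReal (M ^ 2 * B)) < ⊤ :=
    ENNReal.mul_lt_top ENNReal.ofReal_lt_top (ENNReal.mul_lt_top hvT ENNReal.ofReal_lt_top)
  rw [lintegral_const_mul' _ _ hC.ne]
  refine ENNReal.mul_lt_top hC ?_
  rw [lintegral_lintegral_swap (f := fun z c => G (c • z)) hGp]
  calc ∫⁻ c in T, ∫⁻ z, G (c • z)
      ≤ ∫⁻ _ in T, ENNReal.ofReal ((1 / 2) ^ (2 * N))⁻¹ * ∫⁻ z, G z := by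
        refine setLIntegral_mono' hTc.measurableSet fun c hc => ?_
        rw [(h0.1 N c (ann_ne (by norm_num) hc)).2.1 G]
        have := hc.1
        gcongr
    _ < ⊤ := by
        rw [setLIntegral_const]
        exact ENNReal.mul_lt_top (ENNReal.mul_lt_top ENNReal.ofReal_lt_top hfin) hvT

theorem t4 (h0 : StmtT0) (_h1 : StmtT1) (h3 : StmtT3) : StmtT4 := by
  intro N a b
  refine ⟨fun g c hc z _ => pp_smul h0 g hc z, fun s g hs κ z => hop_mul s g hs κ z,
    fun ψ hψ => ⟨fun z hz => (pp_smooth hψ hz).1.contDiffWithinAt, fun j z hz => pp_dz hψ j hz⟩,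
    fun g ψ K hK hK0 hgK hg hψ => pp_dual h0 hK hK0 hgK hg hψ,
    fun κ hκ g hg => ⟨hop_meas h0 hκ hg, hop_eq h0 hκ hg, fun hfin => ?_⟩⟩
  exact ((h3.2 N).1 κ hκ).2.2.2.2.2 a b _
    (fun c hc => ae_of_all _ fun z _ => pp_smul h0 _ hc z) (hop_meas h0 hκ hg)
    (hop_fin h0 hκ hg hfin)

end

end Pool.Agent.MP_fcd29e_an.H55
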