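import Pool.Agent.MP_fcd29e_an.H81.Spec
import Pool.Agent.MP_9fca84_an.H66.Param

/-! Averages over complex lines: homogeneity and smoothness. -/

set_option autoImplicit false

namespace Pool.Agent.MP_fcd29e_an.H55

open Pool.Agent.MP_fcd29e_an.H81 MeasureTheory Complex Set Filter Topology Metric
open scoped ContDiff ComplexConjugate ENNReal NNReal

noncomputable section

variable {N : ℕ} {a b : ℤ}

/-- The weight of the average. -/
def wt (a b : ℤ) (c : ℂ) : ℂ := ((‖c‖ ^ 2 : ℝ) : ℂ)⁻¹ * (c ^ (-a) * conj c ^ (-b))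

theorem pp_eq (a b : ℤ) (g : E N → ℂ) (y : E N) :
    Pp a b g y = ∫ c, wt a b c * g (c • y) := by
  simp only [Pp, wt, mul_assoc]

theorem wt_zero : wt a b 0 = 0 := by simp [wt]

theorem wt_mul (l c : ℂ) : wt a b (l * c) = wt a b l * wt a b c := by
  simp only [wt, norm_mul, mul_pow, ofReal_mul, mul_inv, map_mul, mul_zpow]; ring

theorem measurable_wt : Measurable (wt a b) := by
  have h1 : Measurable fun c : ℂ => conj c := continuous_conj.measurable
  unfold wt
  exact (by fun_prop : Measurable fun c : ℂ => ((‖c‖ ^ 2 : ℝ) : ℂ)).inv.mul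
    ((measurable_id.pow_const _).mul (h1.pow_const _))

theorem contDiffAt_zp (n : ℤ) {c : ℂ} (hc : c ≠ 0) : ContDiffAt ℝ ∞ (fun w : ℂ => w ^ n) c :=
  (((analyticAt_id (𝕜 := ℂ)).zpow (n := n) hc).contDiffAt (n := ∞)).restrict_scalars ℝ

theorem contDiffAt_wt {c : ℂ} (hc : c ≠ 0) : ContDiffAt ℝ ∞ (wt a b) c := by
  have h1 : ContDiffAt ℝ ∞ (fun w : ℂ => ((‖w‖ ^ 2 : ℝ) : ℂ)) c :=
    ofRealCLM.contDiff.contDiffAt.comp c (contDiff_norm_sq ℝ).contDiffAt
  have h2 : ContDiffAt ℝ ∞ (fun w : ℂ => conj w ^ (-b)) c :=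
    (contDiffAt_zp (-b) (c := conj c) (by simpa using hc)).comp c conjCLE.contDiff.contDiffAt
  exact (h1.inv (by simpa using hc)).mul ((contDiffAt_zp (-a) hc).mul h2)

theorem wt_left {c : ℂ} (hc : c ≠ 0) : wt (a - 1) b c = wt a b c * c := by
  simp only [wt, neg_sub]
  rw [show (1 - a) = -a + 1 by ring, zpow_add_one₀ hc]; ring

theorem wt_right {c : ℂ} (hc : c ≠ 0) : wt a (b - 1) c = wt a b c * conj c := by
  simp only [wt, neg_sub]
  rw [show (1 - b) = -b + 1 by ring, zpow_add_one₀ (by simpa using hc)]; ring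

theorem wt_cancel {c : ℂ} (hc : c ≠ 0) :
    wt a b c * (c ^ a * conj c ^ b) = ((‖c‖ ^ 2 : ℝ) : ℂ)⁻¹ := by
  have h1 : c ^ a ≠ 0 := zpow_ne_zero _ hc
  have h2 : conj c ^ b ≠ 0 := zpow_ne_zero _ (by simpa using hc)
  simp only [wt, zpow_neg]
  field_simp

theorem pp_smul (h0 : StmtT0) (g : E N → ℂ) {l : ℂ} (hl : l ≠ 0) (z : E N) :
    Pp a b g (l • z) = l ^ a * conj l ^ b * Pp a b g z := by
  have h1 := (h0.2.1 l hl).1 fun c => wt a b c * g (c • z)
  have h2 : ∫ c, wt a b (l * c) * g ((l * c) • z) = wt a b l * Pp a b g (l • z) := by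
    rw [pp_eq, ← integral_const_mul]
    refine integral_congr_ae (ae_of_all _ fun c => ?_)
    simp only [wt_mul, smul_smul, mul_comm c l, mul_assoc]
  rw [h2, ← pp_eq, ← wt_cancel (a := a) (b := b) hl, mul_assoc] at h1
  refine mul_left_cancel₀ ?_ h1
  intro h
  have := wt_cancel (a := a) (b := b) hl
  rw [h, zero_mul] at this
  exact (inv_ne_zero (by simpa using hl)) this.symm

theorem hop_mul (s g : E N → ℂ) (hs : ∀ c : ℂ, c ≠ 0 → ∀ z, s (c • z) = s z) (κ : ℝ → ℝ)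
    (z : E N) : Hop κ a b (fun y => s y * g y) z = s z * Hop κ a b g z := by
  simp only [Hop, pp_eq]
  rw [← integral_const_mul]
  refine integral_congr_ae (ae_of_all _ fun c => ?_)
  by_cases hc : c = 0
  · simp [hc, wt_zero]
  · simp only [hs c hc]; ring

/-- A compact set without the origin lies in a shell. -/
theorem shell {K : Set (E N)} (hK : IsCompact K) (h0 : (0 : E N) ∉ K) :
    ∃ r R : ℝ, 0 < r ∧ 0 < R ∧ ∀ z ∈ K, r ≤ ‖z‖ ∧ ‖z‖ ≤ R := by
  obtain ⟨R, hR, h⟩ := hK.isBounded.exists_pos_norm_le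
  obtain ⟨r, hr, h'⟩ := Metric.isOpen_iff.1 hK.isClosed.isOpen_compl 0 h0
  refine ⟨r, R, hr, hR, fun z hz => ⟨?_, h z hz⟩⟩
  by_contra hh
  exact h' (mem_ball_zero_iff.2 (not_le.1 hh)) hz

/-- An annulus. -/
def ann (r R : ℝ) : Set ℂ := {c | r ≤ ‖c‖ ∧ ‖c‖ ≤ R}

theorem isCompact_ann (r R : ℝ) : IsCompact (ann r R) :=
  (isCompact_closedBall (0 : ℂ) R).of_isClosed_subset
    ((isClosed_le continuous_const continuous_norm).inter
      (isClosed_le continuous_norm continuous_const))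
    fun _ hc => mem_closedBall_zero_iff.2 hc.2

theorem ann_ne {r R : ℝ} (hr : 0 < r) {c : ℂ} (hc : c ∈ ann r R) : c ≠ 0 :=
  norm_pos_iff.1 (hr.trans_le hc.1)

theorem mem_ann {r R s S : ℝ} (hs : 0 < s) {c : ℂ} {z : E N} (h1 : s ≤ ‖z‖) (h2 : ‖z‖ ≤ S)
    (h3 : r ≤ ‖c • z‖) (h4 : ‖c • z‖ ≤ R) : c ∈ ann (r / S) (R / s) := by
  rw [norm_smul] at h3 h4
  have hS : 0 < S := hs.trans_le (h1.trans h2)
  constructor
  · rw [div_le_iff₀ hS]
    exact h3.trans (mul_le_mul_of_nonneg_left h2 (norm_nonneg _))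
  · rw [le_div_iff₀ hs]
    exact (mul_le_mul_of_nonneg_left h1 (norm_nonneg _)).trans h4

theorem fderiv_ee (ψ : E N → ℂ) (y : E N) (j : Fin N) (d : ℂ) :
    fderiv ℝ ψ y (d • ee j) = d * dz j ψ y + conj d * dzb j ψ y := by
  rw [fderiv_eq, Finset.sum_eq_single j]
  · simp [ee]
  · intro k _ hk
    simp [ee, hk]
  · simp

theorem pp_smooth {ψ : E N → ℂ} (hψ : Test (E0 N) ψ) {z : E N} (hz : z ≠ 0) :
    ContDiffAt ℝ ∞ (Pp a b ψ) z ∧ ∀ v, Integrable (fun c : ℂ => wt a b c *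
      fderiv ℝ ψ (c • z) (c • v)) ∧
        fderiv ℝ (Pp a b ψ) z v = ∫ c : ℂ, wt a b c * fderiv ℝ ψ (c • z) (c • v) := by
  obtain ⟨r, R, hr, hR, hK⟩ := shell hψ.2.1 fun h => hψ.2.2 h rfl
  have hz' : 0 < ‖z‖ := norm_pos_iff.2 hz
  set U : Set (E N) := ball z (‖z‖ / 2) with hU
  set T : Set ℂ := ann (r / (2 * ‖z‖)) (R / (‖z‖ / 2)) with hT
  have hTc : IsCompact T := isCompact_ann _ _
  have hT0 : ∀ c ∈ T, c ≠ 0 := fun c hc => ann_ne (by positivity) hc
  have hzU : z ∈ U := mem_ball_self (by positivity)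
  have hout : ∀ x ∈ U, ∀ c ∉ T, c • x ∉ tsupport ψ := by
    intro x hx c hc h
    have h1 := mem_ball_iff_norm.1 hx
    have h2 := abs_norm_sub_norm_le x z
    rw [abs_le] at h2
    exact hc (mem_ann (by positivity) (by linarith) (by linarith) (hK _ h).1 (hK _ h).2)
  let f : E N × ℂ → ℂ := fun p => wt a b p.2 * ψ (p.2 • p.1)
  have hf : ∀ x ∈ U, ∀ q ∈ T, ContDiffAt ℝ ∞ f (x, q) := by
    intro x _ q hq
    have h1 : ContDiffAt ℝ ∞ (fun p : E N × ℂ => wt a b p.2) (x, q) :=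
      ContDiffAt.comp (g := wt a b) (f := Prod.snd) (x, q) (contDiffAt_wt (hT0 q hq)) contDiffAt_snd
    have h2 : ContDiffAt ℝ ∞ (fun p : E N × ℂ => ψ (p.2 • p.1)) (x, q) :=
      hψ.1.contDiffAt.comp (x, q) (contDiffAt_snd.smul contDiffAt_fst)
    exact h1.mul h2
  have heq : Pp a b ψ =ᶠ[𝓝 z] fun x => ∫ q in T, f (x, q) := by
    filter_upwards [isOpen_ball.mem_nhds hzU] with x hx
    rw [pp_eq, setIntegral_eq_integral_of_forall_compl_eq_zero]
    intro c hc
    simp only [f]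
    rw [image_eq_zero_of_notMem_tsupport (hout x hx c hc), mul_zero]
  refine ⟨((MP_9fca84_an.H66.param_smooth (μ := volume) hTc isOpen_ball hf).contDiffAt
    (isOpen_ball.mem_nhds hzU)).congr_of_eventuallyEq heq, fun v => ?_⟩
  have hint := MP_9fca84_an.H66.slice_integrableOn (μ := volume) hTc (x := z)
    (f := fun w => fderiv ℝ f w ∘L ContinuousLinearMap.inl ℝ (E N) ℂ)
    fun q hq => MP_9fca84_an.H66.slice_contDiffAt (hf z hzU q hq)
  have hval : ∀ q ∈ T, (fderiv ℝ f (z, q) ∘L ContinuousLinearMap.inl ℝ (E N) ℂ) v =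
      wt a b q * fderiv ℝ ψ (q • z) (q • v) := by
    intro q hq
    rw [← (MP_9fca84_an.H66.slice_hasFDerivAt (hf z hzU q hq)).fderiv]
    have h2 : HasFDerivAt (fun y : E N => q • y) (q • ContinuousLinearMap.id ℝ (E N)) z :=
      (hasFDerivAt_id z).const_smul q
    have h3 := (((hψ.1.differentiable (by simp) (q • z)).hasFDerivAt.comp z h2).const_mul
      (wt a b q)).fderiv
    have h4 := congrArg (fun A : E N →L[ℝ] ℂ => A v) h3
    simpa [Function.comp_def, f] using h4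
  have hoff : ∀ c ∉ T, wt a b c * fderiv ℝ ψ (c • z) (c • v) = 0 := by
    intro c hc
    have : fderiv ℝ ψ (c • z) = 0 := by
      by_contra h
      exact hout z hzU c hc (support_fderiv_subset ℝ (f := ψ) h)
    simp [this]
  constructor
  · refine IntegrableOn.integrable_of_forall_notMem_eq_zero (s := T) ?_ hoff
    exact (hint.apply_continuousLinearMap v).congr
      ((ae_restrict_iff' hTc.measurableSet).2 (ae_of_all _ hval))
  · rw [heq.fderiv_eq, (MP_9fca84_an.H66.param_deriv (μ := volume) hTc isOpen_ball hf hzU).fderiv,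
      ContinuousLinearMap.integral_apply hint,
      setIntegral_congr_fun hTc.measurableSet hval,
      setIntegral_eq_integral_of_forall_compl_eq_zero hoff]

theorem pp_dz {ψ : E N → ℂ} (hψ : Test (E0 N) ψ) (j : Fin N) {z : E N} (hz : z ≠ 0) :
    dz j (Pp a b ψ) z = Pp (a - 1) b (dz j ψ) z ∧
      dzb j (Pp a b ψ) z = Pp a (b - 1) (dzb j ψ) z := by
  obtain ⟨i1, e1⟩ := (pp_smooth (a := a) (b := b) hψ hz).2 (ee j)
  obtain ⟨i2, e2⟩ := (pp_smooth (a := a) (b := b) hψ hz).2 (I • ee j)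
  constructor
  · rw [dz, e1, e2, ← integral_const_mul, ← integral_sub i1 (i2.const_mul I), ← integral_div,
      pp_eq]
    refine integral_congr_ae (ae_of_all _ fun c => ?_)
    by_cases hc : c = 0
    · simp [hc, wt_zero]
    · simp only [smul_smul, fderiv_ee, wt_left hc, map_mul, conj_I]
      linear_combination (wt a b c * (conj c * dzb j ψ (c • z) - c * dz j ψ (c • z))) / 2 * I_mul_I
  · rw [dzb, e1, e2, ← integral_const_mul, ← integral_add i1 (i2.const_mul I), ← integral_div,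
      pp_eq]
    refine integral_congr_ae (ae_of_all _ fun c => ?_)
    by_cases hc : c = 0
    · simp [hc, wt_zero]
    · simp only [smul_smul, fderiv_ee, wt_right hc, map_mul, conj_I]
      linear_combination (wt a b c * (c * dz j ψ (c • z) - conj c * dzb j ψ (c • z))) / 2 * I_mul_I

end

end Pool.Agent.MP_fcd29e_an.H55
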